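import Pool.Agent.Run7.h342.MD.Stm

/-!
Piece COD of the project MD: the vectors with a diagonalizable non-scalar element in the
stabilizer are of codimension two.
-/

namespace Run7.h992.MD

open MvPolynomial Run7.h342.MD

noncomputable section

variable {n d : ℕ}

section ring

variable {R S : Type} [CommRing R] [CommRing S]

theorem map_pol (f : R →+* S) (c : Ix n d → R) (i : Fin n) :
    pol (fun q => f (c q)) i = map f (pol c i) := by
  unfold pol
  rw [map_sum]
  refine Finset.sum_congr rfl fun s _ => ?_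
  rw [map_mul, map_C, map_multiset_prod, Multiset.map_map]
  simp

theorem map_tw (f : R →+* S) (A B : Matrix (Fin n) (Fin n) R) (c : Ix n d → R) (q : Ix n d) :
    tw (A.map f) (B.map f) (fun q => f (c q)) q = f (tw A B c q) := by
  unfold tw
  rw [← coeff_map]
  congr 1
  rw [map_sum]
  refine Finset.sum_congr rfl fun j _ => ?_
  rw [map_mul, map_C, map_pol]
  congr 1
  refine Eq.trans ?_ (map_bind₁ f _ _).symm
  refine congrArg (fun F : Fin n → MvPolynomial (Fin n) S => bind₁ F (map f (pol c j))) ?_
  funext l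
  rw [map_sum]
  refine Finset.sum_congr rfl fun m _ => ?_
  rw [map_mul, map_C, map_X, Matrix.map_apply]

end ring

section field

variable {k : Type} [Field k]

theorem tw_tw [Infinite k] (A A' B B' : Matrix (Fin n) (Fin n) k) (c : Ix n d → k) :
    tw (A * A') (B' * B) c = tw A B (tw A' B' c) := by
  apply ev_injective
  intro x
  rw [ev_tw, ev_tw, ev_tw, Matrix.mulVec_mulVec, Matrix.mulVec_mulVec]

theorem tw_smul [Infinite k] (A B : Matrix (Fin n) (Fin n) k) (a : k) (c : Ix n d → k) :
    tw A B (a • c) = a • tw A B c := by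
  apply ev_injective
  intro x
  rw [ev_tw, ev_smul, ev_smul, ev_tw, Matrix.mulVec_smul]

theorem tw_smul_right [Infinite k] (A B : Matrix (Fin n) (Fin n) k) (a : k) (c : Ix n d → k) :
    tw A (a • B) c = a ^ d • tw A B c := by
  apply ev_injective
  intro x
  rw [ev_tw, ev_smul, ev_tw, Matrix.smul_mulVec, ev_scale, Matrix.mulVec_smul]

theorem tw_diag [Infinite k] (a b : Fin n → k) (c : Ix n d → k) (q : Ix n d) :
    tw (Matrix.diagonal a) (Matrix.diagonal b) c q =
      a q.1 * ((q.2 : Multiset (Fin n)).map b).prod * c q := by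
  have h : tw (Matrix.diagonal a) (Matrix.diagonal b) c =
      fun q => a q.1 * ((q.2 : Multiset (Fin n)).map b).prod * c q := by
    apply ev_injective
    intro x
    funext i
    rw [ev_tw, Matrix.mulVec_diagonal]
    unfold ev
    rw [Finset.mul_sum]
    refine Finset.sum_congr rfl fun s _ => ?_
    have h1 : ((s : Multiset (Fin n)).map ((Matrix.diagonal b).mulVec x)).prod =
        ((s : Multiset (Fin n)).map b).prod * ((s : Multiset (Fin n)).map x).prod := by
      rw [← Multiset.prod_map_mul]
      refine congrArg Multiset.prod (Multiset.map_congr rfl fun j _ => ?_)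
      rw [Matrix.mulVec_diagonal]
    rw [h1]
    ring
  rw [h]

/-- the parameters: matrices with first row `(1, …, 1)` and vectors supported in `T` -/
abbrev Sg (n d : ℕ) (i₀ : Fin n) (T : Finset (Ix n d)) : Type :=
  {p : Fin n × Fin n // p.1 ≠ i₀} ⊕ {q : Ix n d // q ∈ T}

variable (k) in
open Classical in
/-- generic matrix with first row `(1, …, 1)` -/
def GM (i₀ : Fin n) (T : Finset (Ix n d)) :
    Matrix (Fin n) (Fin n) (MvPolynomial (Sg n d i₀ T) k) := fun i j =>
  if h : i ≠ i₀ then X (Sum.inl ⟨(i, j), h⟩) else 1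

variable (k) in
open Classical in
/-- generic vector supported in `T` -/
def GV (i₀ : Fin n) (T : Finset (Ix n d)) : Ix n d → MvPolynomial (Sg n d i₀ T) k := fun q =>
  if h : q ∈ T then X (Sum.inr ⟨q, h⟩) else 0

variable (k) in
/-- the parametrization -/
def PH (i₀ : Fin n) (T : Finset (Ix n d)) : Ix n d → MvPolynomial (Sg n d i₀ T) k :=
  tw (GM k i₀ T) (GM k i₀ T).adjugate (GV k i₀ T)

theorem eval_PH (i₀ : Fin n) (T : Finset (Ix n d)) (g : Matrix (Fin n) (Fin n) k)
    (hg : ∀ j, g i₀ j = 1) (c : Ix n d → k) (hc : ∀ q, q ∉ T → c q = 0) (q : Ix n d) :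
    eval (Sum.elim (fun p => g p.1.1 p.1.2) (fun q => c q.1) : Sg n d i₀ T → k) (PH k i₀ T q) =
      tw g g.adjugate c q := by
  set v : Sg n d i₀ T → k := Sum.elim (fun p => g p.1.1 p.1.2) (fun q => c q.1) with hv
  have h1 : (GM k i₀ T).map (eval v) = g := by
    ext i j
    rw [Matrix.map_apply]
    unfold GM
    by_cases h : i ≠ i₀
    · rw [dif_pos h, eval_X, hv]
      rfl
    · rw [dif_neg h, map_one]
      have h2 : i = i₀ := not_not.1 h
      rw [h2, hg]
  have h2 : (GM k i₀ T).adjugate.map (eval v) = g.adjugate := by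
    have := RingHom.map_adjugate (eval v) (GM k i₀ T)
    simp only [RingHom.mapMatrix_apply] at this
    rw [this, h1]
  have h3 : (fun q => eval v (GV k i₀ T q)) = c := by
    funext q
    unfold GV
    by_cases h : q ∈ T
    · rw [dif_pos h, eval_X, hv]
      rfl
    · rw [dif_neg h, map_zero, hc q h]
  unfold PH
  rw [← map_tw, h1, h2, h3]

theorem card_Sg (i₀ : Fin n) (T : Finset (Ix n d)) :
    Fintype.card (Sg n d i₀ T) + n = n * n + T.card := by
  have h1 : Fintype.card {p : Fin n × Fin n // p.1 ≠ i₀} + n = n * n := by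
    have h2 := Fintype.card_subtype_compl (fun p : Fin n × Fin n => p.1 = i₀)
    have h3 : Fintype.card {p : Fin n × Fin n // p.1 = i₀} = n := by
      rw [Fintype.card_subtype]
      have : (Finset.univ.filter fun p : Fin n × Fin n => p.1 = i₀) =
          ({i₀} : Finset (Fin n)) ×ˢ Finset.univ := by
        ext p
        simp only [Finset.mem_filter, Finset.mem_univ, true_and, Finset.mem_product,
          Finset.mem_singleton, and_true]
      rw [this, Finset.card_product]
      simp
    rw [Fintype.card_prod, Fintype.card_fin, h3] at h2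
    have h4 : n ≤ n * n := Nat.le_mul_self n
    have h5 : Fintype.card {p : Fin n × Fin n // p.1 ≠ i₀} = n * n - n := h2
    rw [h5]
    exact Nat.sub_add_cancel h4
  rw [Fintype.card_sum, Fintype.card_coe]
  omega

/-- the relation -/
theorem exists_rel (i₀ : Fin n) (T : Finset (Ix n d))
    (hT : T.card + n * n + 2 ≤ n + Fintype.card (Ix n d)) (α : Ix n d) :
    ∃ q₁ : MvPolynomial {β : Ix n d // β ≠ α} k, q₁ ≠ 0 ∧
      aeval (fun β : {β : Ix n d // β ≠ α} => PH k i₀ T β.1) q₁ = 0 := by
  by_contra hcon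
  have hind : AlgebraicIndependent k (fun β : {β : Ix n d // β ≠ α} => PH k i₀ T β.1) := by
    rw [algebraicIndependent_iff]
    intro p hp
    by_contra hne
    exact hcon ⟨p, hne, hp⟩
  have h1 := hind.cardinalMk_le_trdeg
  rw [MvPolynomial.trdeg_of_isDomain, Cardinal.lift_id, Cardinal.mk_fintype, Cardinal.mk_fintype,
    Nat.cast_le] at h1
  have h2 := card_Sg (d := d) i₀ T
  have h3 : Fintype.card {β : Ix n d // β ≠ α} = Fintype.card (Ix n d) - 1 := by
    have := Fintype.card_subtype_compl (fun β : Ix n d => β = α)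
    rw [Fintype.card_subtype_eq] at this
    convert this using 2
  have h4 : 0 < Fintype.card (Ix n d) := Fintype.card_pos_iff.2 ⟨α⟩
  omega

/-- generic matrix -/
theorem dens [Infinite k] (i₀ : Fin n) (c : Ix n d → k) (q : MvPolynomial (Ix n d) k)
    (h : ∀ g : Matrix (Fin n) (Fin n) k, (∀ j, g i₀ j ≠ 0) → eval (tw g g.adjugate c) q = 0)
    (g : Matrix (Fin n) (Fin n) k) : eval (tw g g.adjugate c) q = 0 := by
  set M : Matrix (Fin n) (Fin n) (MvPolynomial (Fin n × Fin n) k) :=
    Matrix.mvPolynomialX (Fin n) (Fin n) k with hM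
  set P : MvPolynomial (Fin n × Fin n) k :=
    aeval (tw M M.adjugate (fun q => C (c q))) q with hP
  have hev : ∀ g : Matrix (Fin n) (Fin n) k, eval (ent g) P = eval (tw g g.adjugate c) q := by
    intro g
    have h1 : M.map (eval (ent g)) = g := by
      ext i j
      rw [Matrix.map_apply, hM, Matrix.mvPolynomialX_apply, eval_X]
      rfl
    have h2 : M.adjugate.map (eval (ent g)) = g.adjugate := by
      have := RingHom.map_adjugate (eval (ent g)) M
      simp only [RingHom.mapMatrix_apply] at this
      rw [this, h1]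
    rw [hP, eval_aeval]
    congr 2
    funext p
    rw [← map_tw, h1, h2]
    congr 1
    funext p
    rw [eval_C]
  have h0 : P * ∏ j, X (i₀, j) = 0 := by
    apply MvPolynomial.funext
    intro x
    rw [map_mul, map_zero, map_prod]
    simp only [eval_X]
    by_cases hx : ∀ j, x (i₀, j) ≠ 0
    · have h2 := h (fun i j => x (i, j)) hx
      have h3 := hev (fun i j => x (i, j))
      have h4 : ent (fun i j => x (i, j) : Matrix (Fin n) (Fin n) k) = x := rfl
      rw [h4, h2] at h3
      rw [h3, zero_mul]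
    · push Not at hx
      obtain ⟨j, hj⟩ := hx
      rw [Finset.prod_eq_zero (Finset.mem_univ j) hj, mul_zero]
  have h1 : P = 0 := by
    rcases mul_eq_zero.1 h0 with h2 | h2
    · exact h2
    · exact absurd h2 (Finset.prod_ne_zero_iff.2 fun j _ => X_ne_zero _)
  rw [← hev, h1, map_zero]

theorem vanish [Infinite k] (i₀ : Fin n) (T : Finset (Ix n d)) (α : Ix n d)
    (q₁ : MvPolynomial {β : Ix n d // β ≠ α} k)
    (h : aeval (fun β : {β : Ix n d // β ≠ α} => PH k i₀ T β.1) q₁ = 0)
    (g : Matrix (Fin n) (Fin n) k) (c : Ix n d → k) (hc : ∀ q, q ∉ T → c q = 0) :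
    eval (tw g g.adjugate c) (rename Subtype.val q₁) = 0 := by
  refine dens i₀ c _ (fun g hg => ?_) g
  set t : Fin n → k := fun j => g i₀ j with ht
  set g' : Matrix (Fin n) (Fin n) k := fun i j => g i j / g i₀ j with hg'
  have h1 : g = g' * Matrix.diagonal t := by
    ext i j
    rw [Matrix.mul_diagonal, hg', ht]
    exact (div_mul_cancel₀ _ (hg j)).symm
  have h2 : tw g g.adjugate c =
      tw g' g'.adjugate (tw (Matrix.diagonal t) (Matrix.diagonal t).adjugate c) := by
    rw [h1, Matrix.adjugate_mul_distrib, tw_tw]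
  set c' := tw (Matrix.diagonal t) (Matrix.diagonal t).adjugate c with hc'
  have h3 : ∀ q, q ∉ T → c' q = 0 := by
    intro q hq
    rw [hc', Matrix.adjugate_diagonal, tw_diag, hc q hq, mul_zero]
  have h4 : ∀ j, g' i₀ j = 1 := fun j => div_self (hg j)
  have h5 := fun q => eval_PH i₀ T g' h4 c' h3 q
  have h6 := congrArg
    (eval (Sum.elim (fun p => g' p.1.1 p.1.2) (fun q => c' q.1) : Sg n d i₀ T → k)) h
  rw [eval_aeval, map_zero] at h6
  simp only [h5] at h6
  rw [h2, eval_rename]
  exact h6

end field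

theorem t_COD (n d : ℕ) (k : Type) [Field k] [IsAlgClosed k] [CharZero k] (hn : 3 ≤ n)
    (_hd : 2 ≤ d) (hcomb : S_COMB n d k) : S_COD n d k := by
  classical
  intro D S hD hDS
  have hinf : Infinite k := IsAlgClosed.instInfinite
  have hDp : Prime D := hD.prime
  have hD0 : D ≠ 0 := hD.ne_zero
  -- a variable of `D`
  obtain ⟨α, hα⟩ : ∃ α : Ix n d, degreeOf α D ≠ 0 := by
    by_contra hcon
    push Not at hcon
    have h1 : D.vars = ∅ := by
      ext β
      simp only [Finset.notMem_empty, iff_false]
      intro hβ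
      have := hcon β
      rw [degreeOf_def] at this
      rw [vars_def, Multiset.mem_toFinset] at hβ
      exact absurd this (Multiset.count_ne_zero.2 hβ)
    obtain ⟨r, hr⟩ : ∃ r, D = C r := by
      exact ⟨_, vars_eq_empty_iff_eq_C.1 h1⟩
    have hr0 : r ≠ 0 := by
      rintro rfl
      exact hD0 (by rw [hr, map_zero])
    exact hD.not_isUnit (by rw [hr]; exact (isUnit_iff_ne_zero.2 hr0).map C)
  have i₀ : Fin n := ⟨0, by omega⟩
  -- the polynomials
  have hrel : ∀ T : Finset (Ix n d), ∃ q : MvPolynomial (Ix n d) k, ¬ D ∣ q ∧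
      (T.card + n * n + 2 ≤ n + Fintype.card (Ix n d) → ∀ (g : Matrix (Fin n) (Fin n) k)
        (c : Ix n d → k), (∀ q, q ∉ T → c q = 0) → eval (tw g g.adjugate c) q = 0) := by
    intro T
    by_cases hT : T.card + n * n + 2 ≤ n + Fintype.card (Ix n d)
    · obtain ⟨q₁, hq₁, hq₂⟩ := exists_rel (k := k) i₀ T hT α
      refine ⟨rename Subtype.val q₁, ?_, fun _ g c hc => vanish i₀ T α q₁ hq₂ g c hc⟩
      rintro ⟨r, hr⟩
      have h0 : rename Subtype.val q₁ ≠ 0 := by
        rw [Ne, ← map_zero (rename (Subtype.val : {β : Ix n d // β ≠ α} → Ix n d))]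
        exact fun h => hq₁ (rename_injective _ Subtype.val_injective h)
      have h1 : r ≠ 0 := by
        rintro rfl
        exact h0 (by rw [hr, mul_zero])
      have h2 := degreeOf_mul_eq (n := α) hD0 h1
      rw [← hr] at h2
      have h3 : degreeOf α (rename Subtype.val q₁) = 0 := by
        rw [degreeOf_def, Multiset.count_eq_zero]
        intro h4
        have h5 : α ∈ (rename Subtype.val q₁).vars := by
          rw [vars_def, Multiset.mem_toFinset]
          exact h4
        have h6 := vars_rename (Subtype.val : {β : Ix n d // β ≠ α} → Ix n d) q₁ h5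
        rw [Finset.mem_image] at h6
        obtain ⟨β, _, hβ⟩ := h6
        exact β.2 hβ
      omega
    · exact ⟨1, fun h => hD.not_isUnit (isUnit_of_dvd_one h), fun h => absurd h hT⟩
  choose qq hq1 hq2 using hrel
  -- the Nullstellensatz
  have hprod : ¬ D ∣ S * ∏ T, qq T := by
    intro h
    rcases hDp.dvd_or_dvd h with h1 | h1
    · exact hDS h1
    · obtain ⟨T, _, hT⟩ := (Prime.dvd_finsetProd_iff hDp _).1 h1
      exact hq1 T hT
  obtain ⟨c, hc1, hc2⟩ : ∃ c : Ix n d → k, eval c D = 0 ∧ eval c (S * ∏ T, qq T) ≠ 0 := by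
    by_contra hcon
    push Not at hcon
    apply hprod
    rw [← Ideal.mem_span_singleton]
    have hpr : (Ideal.span {D}).IsPrime := (Ideal.span_singleton_prime hD0).2 hDp
    rw [← hpr.radical, ← vanishingIdeal_zeroLocus_eq_radical (K := k), mem_vanishingIdeal_iff]
    intro x hx
    rw [aeval_eq_eval]
    refine hcon x ?_
    have := hx D (Ideal.mem_span_singleton_self D)
    rwa [aeval_eq_eval] at this
  rw [map_mul, map_prod] at hc2
  refine ⟨c, hc1, left_ne_zero_of_mul hc2, ?_⟩
  intro g hg hgs hgc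
  obtain ⟨u, a, hua⟩ := hg
  -- the entries of `a` are nonzero
  have hdet : (g : Matrix (Fin n) (Fin n) k).det ≠ 0 := by
    have := g.isUnit
    exact ((Matrix.isUnit_iff_isUnit_det _).1 this).ne_zero
  have ha : ∀ i, a i ≠ 0 := by
    rw [hua, Matrix.det_mul, Matrix.det_mul, Matrix.det_diagonal] at hdet
    have h1 := right_ne_zero_of_mul (left_ne_zero_of_mul hdet)
    intro i
    exact (Finset.prod_ne_zero_iff.1 h1) i (Finset.mem_univ i)
  have hne : ∃ i j, a i ≠ a j := by
    by_contra hcon
    push Not at hcon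
    apply hgs
    refine ⟨a i₀, ?_⟩
    have h1 : Matrix.diagonal a = a i₀ • (1 : Matrix (Fin n) (Fin n) k) := by
      rw [Matrix.smul_one_eq_diagonal]
      congr 1
      funext i
      exact hcon i i₀
    rw [hua, h1, Matrix.mul_smul, Matrix.mul_one, Matrix.smul_mul]
    have h2 : (u : Matrix (Fin n) (Fin n) k) * ((u⁻¹ : GL (Fin n) k) : Matrix (Fin n) (Fin n) k) = 1 :=
      u.mul_inv
    rw [h2]
  have hcount := hcomb a ha hne
  set T : Finset (Ix n d) :=
    Finset.univ.filter fun q => a q.1 = ((q.2 : Multiset (Fin n)).map a).prod with hT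
  have hTc : T.card + {q : Ix n d | a q.1 ≠ ((q.2 : Multiset (Fin n)).map a).prod}.ncard =
      Fintype.card (Ix n d) := by
    have h1 : {q : Ix n d | a q.1 ≠ ((q.2 : Multiset (Fin n)).map a).prod} =
        ((Finset.univ.filter fun q : Ix n d =>
          ¬ a q.1 = ((q.2 : Multiset (Fin n)).map a).prod : Finset (Ix n d)) : Set (Ix n d)) := by
      ext q
      simp
    rw [h1, Set.ncard_coe_finset, hT, Finset.card_filter_add_card_filter_not, Finset.card_univ]
  have hTg : T.card + n * n + 2 ≤ n + Fintype.card (Ix n d) := by omega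
  -- the vector in normal position
  set c' : Ix n d → k := act u⁻¹ c with hc'
  have hcc : act u c' = c := by
    rw [hc', ← act_mul, mul_inv_cancel, act_one]
  have hdiag : ∀ x, ev c' ((Matrix.diagonal a).mulVec x) = (Matrix.diagonal a).mulVec (ev c' x) := by
    intro x
    have h1 : ev c (g.1.mulVec (u.1.mulVec x)) = g.1.mulVec (ev c (u.1.mulVec x)) := by
      conv_lhs => rw [← hgc]
      exact ev_act_mulVec g c _
    have h2 : g.1.mulVec (u.1.mulVec x) = u.1.mulVec ((Matrix.diagonal a).mulVec x) := by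
      have h3 : (g.1 : Matrix (Fin n) (Fin n) k) * u.1 = u.1 * Matrix.diagonal a := by
        have h4 : (g.1 : Matrix (Fin n) (Fin n) k) = u.1 * Matrix.diagonal a * (u⁻¹).1 := hua
        rw [h4, Matrix.mul_assoc]
        have h5 : ((u⁻¹ : GL (Fin n) k).1 : Matrix (Fin n) (Fin n) k) * u.1 = 1 := u.inv_mul
        rw [h5, Matrix.mul_one]
      rw [Matrix.mulVec_mulVec, Matrix.mulVec_mulVec, h3]
    rw [h2] at h1
    have h6 : ∀ y, ev c' y = (u⁻¹ : GL (Fin n) k).1.mulVec (ev c (u.1.mulVec y)) := by
      intro y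
      have := ev_act u⁻¹ c y
      rw [inv_inv] at this
      exact this
    rw [h6, h6, h1]
    have h7 : ((u⁻¹ : GL (Fin n) k).1 : Matrix (Fin n) (Fin n) k) * g.1 =
        Matrix.diagonal a * (u⁻¹ : GL (Fin n) k).1 := by
      have h4 : (g.1 : Matrix (Fin n) (Fin n) k) = u.1 * Matrix.diagonal a * (u⁻¹).1 := hua
      have h5 : ((u⁻¹ : GL (Fin n) k).1 : Matrix (Fin n) (Fin n) k) * u.1 = 1 := u.inv_mul
      rw [h4, ← Matrix.mul_assoc, ← Matrix.mul_assoc, h5, Matrix.one_mul]
    rw [Matrix.mulVec_mulVec, Matrix.mulVec_mulVec, h7]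
  have hsupp : ∀ q, q ∉ T → c' q = 0 := by
    have h1 : (fun q : Ix n d => ((q.2 : Multiset (Fin n)).map a).prod * c' q) =
        fun q => a q.1 * c' q := by
      apply ev_injective
      intro x
      have h2 := hdiag x
      funext i
      have h3 := congrFun h2 i
      rw [Matrix.mulVec_diagonal] at h3
      unfold ev at h3 ⊢
      rw [Finset.mul_sum] at h3
      calc _ = ∑ s : Sym (Fin n) d, c' (i, s) *
            ((s : Multiset (Fin n)).map ((Matrix.diagonal a).mulVec x)).prod := by
            refine Finset.sum_congr rfl fun s _ => ?_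
            have h4 : ((s : Multiset (Fin n)).map ((Matrix.diagonal a).mulVec x)).prod =
                ((s : Multiset (Fin n)).map a).prod * ((s : Multiset (Fin n)).map x).prod := by
              rw [← Multiset.prod_map_mul]
              refine congrArg Multiset.prod (Multiset.map_congr rfl fun j _ => ?_)
              rw [Matrix.mulVec_diagonal]
            rw [h4]
            ring
        _ = _ := h3
        _ = _ := by
            refine Finset.sum_congr rfl fun s _ => ?_
            ring
    intro q hq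
    have h2 : ((q.2 : Multiset (Fin n)).map a).prod * c' q = a q.1 * c' q := congrFun h1 q
    by_contra h3
    apply hq
    rw [hT, Finset.mem_filter]
    exact ⟨Finset.mem_univ _, (mul_right_cancel₀ h3 h2).symm⟩
  -- the contradiction
  have hz : eval c (qq T) = 0 := by
    have h1 := hq2 T hTg u.1 (((u.1 : Matrix (Fin n) (Fin n) k).det⁻¹) ^ d • c') (by
      intro q hq
      rw [Pi.smul_apply, hsupp q hq, smul_zero])
    have h2 : tw u.1 (u.1 : Matrix (Fin n) (Fin n) k).adjugate
        (((u.1 : Matrix (Fin n) (Fin n) k).det⁻¹) ^ d • c') = c := by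
      rw [tw_smul, ← tw_smul_right]
      have h3 : ((u⁻¹ : GL (Fin n) k).1 : Matrix (Fin n) (Fin n) k) =
          (u.1 : Matrix (Fin n) (Fin n) k).det⁻¹ • (u.1 : Matrix (Fin n) (Fin n) k).adjugate := by
        have h4 : ((u⁻¹ : GL (Fin n) k).1 : Matrix (Fin n) (Fin n) k) = (u.1)⁻¹ := by
          rw [Matrix.coe_units_inv]
        rw [h4, Matrix.inv_def, Ring.inverse_eq_inv']
      rw [← h3]
      exact hcc
    rw [h2] at h1
    exact h1
  exact (right_ne_zero_of_mul hc2) (Finset.prod_eq_zero (Finset.mem_univ T) hz)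

end

end Run7.h992.MD
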