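import Pool.Agent.Run7.h342.MD.Stm

/-!
Piece REPU of the project MD: denominators are powers of the resultant, and the algebra of the
regular functions on the nondegenerate vectors is finitely generated.
-/

namespace Run7.h992.MD

open MvPolynomial Run7.h342.MD

noncomputable section

theorem t_REPU (n d : ℕ) (k : Type) [Field k] [IsAlgClosed k] [CharZero k] (_hn : 3 ≤ n)
    (_hd : 2 ≤ d) : S_REPU n d k := by
  classical
  intro Θ hΘ
  have hpart : ∀ φ : U n d k → k, RegU φ → ∃ P m, RepU φ P (Θ ^ m) := by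
    rintro φ ⟨P, Q, hPQ⟩
    have hrad : Θ ∈ (Ideal.span {Q} : Ideal (MvPolynomial (Ix n d) k)).radical := by
      rw [← vanishingIdeal_zeroLocus_eq_radical (K := k), mem_vanishingIdeal_iff]
      intro x hx
      rw [aeval_eq_eval]
      by_contra hne
      have h1 := (hPQ ⟨x, (hΘ.iff x).1 hne⟩).1
      have h2 := hx Q (Ideal.mem_span_singleton_self Q)
      rw [aeval_eq_eval] at h2
      exact h1 h2
    obtain ⟨m, hm⟩ := hrad
    rw [Ideal.mem_span_singleton] at hm
    obtain ⟨Q', hQ'⟩ := hm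
    refine ⟨P * Q', m, fun x => ?_⟩
    have h0 : eval x.1 (Θ ^ m) ≠ 0 := by
      rw [map_pow]
      exact pow_ne_zero _ ((hΘ.iff x.1).2 x.2)
    refine ⟨h0, ?_⟩
    rw [(hPQ x).2, hQ', map_mul, map_mul]
    rw [hQ', map_mul] at h0
    exact (mul_div_mul_right _ _ (right_ne_zero_of_mul h0)).symm
  refine ⟨hpart, ?_⟩
  have hne : ∀ x : U n d k, eval x.1 Θ ≠ 0 := fun x => (hΘ.iff x.1).2 x.2
  -- the generators
  set gen : Option (Ix n d) → OU n d k := fun o => match o with
    | none => ⟨fun x => (eval x.1 Θ)⁻¹, 1, Θ, fun x => ⟨hne x, by rw [map_one, one_div]⟩⟩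
    | some q => ⟨fun x => x.1 q, X q, 1, fun x =>
        ⟨by rw [map_one]; exact one_ne_zero, by rw [map_one, eval_X, div_one]⟩⟩ with hgen
  have hev : ∀ (p : MvPolynomial (Option (Ix n d)) k) (x : U n d k),
      (aeval gen p : OU n d k).1 x = eval (fun o => (gen o).1 x) p := by
    intro p x
    have h1 : ∀ p : MvPolynomial (Option (Ix n d)) k,
        (((Pi.evalAlgHom k (fun _ : U n d k => k) x).comp (OU n d k).val).comp (aeval gen)) p =
          aeval (fun o => (gen o).1 x) p := by
      intro p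
      refine DFunLike.congr_fun (MvPolynomial.algHom_ext (fun o => ?_)) p
      rw [AlgHom.comp_apply, aeval_X, aeval_X]
      rfl
    have h2 := h1 p
    rw [aeval_eq_eval] at h2
    exact h2
  refine Algebra.FiniteType.of_surjective (aeval gen) ?_
  rintro ⟨φ, hφ⟩
  obtain ⟨P, m, hPm⟩ := hpart φ hφ
  refine ⟨rename some P * X none ^ m, ?_⟩
  apply Subtype.ext
  funext x
  rw [hev, map_mul, map_pow, eval_X, eval_rename]
  have h1 : ((fun o => (gen o).1 x) ∘ some) = x.1 := by
    funext q
    rfl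
  rw [h1]
  have h2 := (hPm x).2
  change _ = φ x
  rw [h2, map_pow, div_eq_mul_inv, ← inv_pow]

end

end Run7.h992.MD
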